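import Pool.Agent.H940.F.SmallT
import Pool.Graph.R_pool_sql_team_seeded_3997aac3.Q57.QE.Main

/-!
# The equivariant motivic monodromy conjecture, over a point, for hypersurfaces `∑ y_j f_j = 0` built from
forms with locally weighted homogeneous isolated singularities

Let `F = ∑ y_j f_j(x)`, where `f = (f_1, …, f_r)` is a tuple of polynomials in `x_1, …, x_n` and the `y_j`
are further variables; `m = n + r`. Let `Z_F(T) ∈ 𝓜^μ̂_(X_s)[[T]]` be the motivic zeta function of Denef
and Loeser, with the action `ψ(t) ↦ ψ(λ t)` of `μ_N` on the jets `X_{N,1} = {ψ : F(ψ) = t ^ N mod t ^ (N +
1)}`. We consider its direct image in `𝓜^μ̂_ℂ[[T]]` under `X_s → Spec ℂ` and its fibre over the origin,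
the series `zetaPt (hypF f) univ` and `zetaPt (hypF f) {0}`. The coefficients are classes of varieties
with action of `μ̂`; the action is not forgotten.

We prove for the tuples `f` of a class the strong form of Q1 for these two series. The basic new tuples
consist of forms of degree `≥ 3` of the following class in disjoint sets of variables: so
`F = ∑_j y_j f_j(x^(j))`.

`LH` is the class of the forms `f` in `x_0, …, x_n` such that the hypersurface `{f = 0}` in the projective
space has only isolated singularities, and each of them is weighted homogeneous: after a formal change
of coordinates and up to a unit the germ is a weighted homogeneous polynomial with an isolated critical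
point (all weights positive). There is no hypothesis on `-(n + 1)/d`, and there are forms in the class for
which it is not a root of the Bernstein-Sato polynomial (for example `x ^ (d - 1) y + z ^ d`, `d ≥ 4`).
Examples: all reduced plane curves with singularities of type `A`, `D`, `E`, `x ^ a = y ^ b`, and so on (`n =
2`), for instance all reduced arrangements of lines, and of lines and conics with quasi-homogeneous
singularities; all surfaces in the projective three-space with rational double points, and so on in all
dimensions; all smooth hypersurfaces.

The class `Germs` is the smallest class of germs at the origin of tuples of polynomials (ideals) which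
contains the forms of degree `≥ 3` in `LH` and the weighted homogeneous polynomials with an isolated
critical point, and which is closed under sums and products of ideals in disjoint sets of variables,
hypersurfaces `∑ y_j f_j(x) = 0`, and formal changes of coordinates, units and smooth factors. The class
`Fams` is the smallest class of families which contains the forms of degree `≥ 3` in `LH` and is closed under
sums and products of ideals in disjoint sets of variables and hypersurfaces `∑ y_j f_j(x) = 0`.

**Method.** (1) The Jacobian ideal of a form `f` in `LH` is of linear type (`lty`), so the annihilator of `f ^ s`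
is generated by operators of order one, up to what is needed for the following: if `b(s) f ^ s = P(s) f ^ (s
+ 1)` near the origin, then `b(-(n + 1)/d) = 0`, or there is a vector field which kills `f` and has a non-zero
divergence at the origin (`root_or_field`). (2) In the second case the semisimple part of the linear part of
the field gives a second one-parameter group of linear maps, with weights `w_i`, `∑ w_i ≠ 0`, which
fixes `f`. New here (`crit_max`, `lt_max`, `pair_of`, `sf_or_pair`): for `d ≥ 3` and the right sign of the
weights all points of the eigenspace of the largest weight `w_(i₀)` are critical; the singular lines are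
isolated, so the eigenspace is a line, the germ of `f` at this singular line is weighted homogeneous in LINEAR
coordinates for the positive weights `a_j = w_(i₀) - w_j` and the degree `e = d w_(i₀)`, and `-(∑ a_j)/e` is the root
which belongs to this singular point. (3) The motivic volumes of the arcs on which `f` has the order `≥ N`
satisfy a recursion for the group with the weights `a_j` (`a_(i₀) = 0` is allowed), with the denominator
`1 - 𝕃 ^ (-∑ a_j) T ^ e` only (`univ_second`). So in both cases all denominators are roots, and the zeta
function is in the ring for one finite set of pairs. The error terms come from arcs with origin outside of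
`0`: near the singular lines these are the volumes for the weighted homogeneous germs, and away from
them the order of the gradient of `f` is bounded, so that the volumes form a geometric series (`stable`).
(4) With this the forms in `LH` are admissible germs in the constructions of the library (cones, sums,
products, hypersurfaces, formal coordinates).
(5) The passage to the equivariant series of `∑ y_j f_j` is that of the library (`gm_trivial`).
-/

set_option autoImplicit false

namespace Pool.Agent.Results.MP_b48657_ag.FormsLocallyWHMu

open MvPolynomial Pool.Agent.H940.F Pool.Agent.Q57.QE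
open Pool.Agent.Q57.MC (hypF)
open Pool.Agent.W428.MOT (InRat LuMu)
open Pool.Agent.H628R4.TP (IsBFunction IsLocalBFunction)

/-- **The strong equivariant motivic monodromy conjecture over a point, for the hypersurfaces
`F = ∑ y_j f_j(x)` of the tuples of the class `Fams` (direct image of `Z_F(T)` in `𝓜^μ̂_ℂ[[T]]`) and of the
class `Germs` (fibre of `Z_F(T)` over the origin, in `𝓜^μ̂_ℂ[[T]]`).**

`zetaPt F W _ = ∑_{N ≥ 1} [X_{N,1,W}] 𝕃 ^ (-m N) T ^ N ∈ 𝓜^μ̂_ℂ[[T]]`, where `X_{N,1,W}` is the variety of the
`N`-jets `ψ` with `ψ(0) ∈ W` and `F(ψ) = t ^ N mod t ^ (N + 1)`, with the action `ψ(t) ↦ ψ(λ t)` of `μ_N`.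
`InRat (LuMu (pt0 ℂ)) S z` says that `z` is in the subring of `𝓜^μ̂_ℂ[[T]]` generated over `𝓜^μ̂_ℂ` by `T` and
the `1 / (1 - 𝕃 ^ a T ^ b)`, `(a, b) ∈ S`. `IsBFunction F b` says that `b(s) F ^ s = P(s) F ^ (s + 1)` for an
operator `P(s)` in the Weyl algebra, polynomial in `s` (for instance `b = b_F`), and `IsLocalBFunction F b`
that this holds for an operator with formal power series coefficients (for instance `b = b_{F,0}`). -/
theorem result {n r : ℕ} (f : Fin r → MvPolynomial (Fin n) ℂ) :
    (Fams n r f → ∃ S : Finset (ℤ × ℤ), (∀ q ∈ S, q.1 < 0 ∧ 0 < q.2 ∧
      ∀ b : Polynomial ℂ, IsBFunction (hypF f) b → b.eval ((q.1 : ℂ) / q.2) = 0) ∧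
      InRat (LuMu (pt0 ℂ)) S (zetaPt (hypF f) Set.univ constr_univ)) ∧
    (Germs n r f → ∃ S : Finset (ℤ × ℤ), (∀ q ∈ S, q.1 < 0 ∧ 0 < q.2 ∧
      ∀ b : Polynomial ℂ, IsLocalBFunction (hypF f) b → b.eval ((q.1 : ℂ) / q.2) = 0) ∧
      InRat (LuMu (pt0 ℂ)) S (zetaPt (hypF f) {0} constr_orig)) := by
  refine ⟨fun hf => mu_global (fam_main hf.fam), fun hf => ?_⟩
  obtain ⟨S, hS, hz⟩ := mu_origin (germ_main hf.germ)
  exact ⟨S, fun q hq => ⟨(hS q hq).1, (hS q hq).2.1, (hS q hq).2.2.2⟩, hz⟩

end Pool.Agent.Results.MP_b48657_ag.FormsLocallyWHMu
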